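import Pool.Agent.N115.AN.Stm

/-!
Project AN, part 3: the orders of the values of `m`-th powers at the places.
-/

set_option autoImplicit false

open FF Pool.Agent.W603.LV Pool.Agent.W602.GT Pool.Agent.Y190.BV Polynomial

namespace Pool.Agent.N115.AN

section
variable {k M : Type} [Field k] [Field M] [Algebra k M] [Infinite k]

/-- the contact of `H` is the sum of the contacts of the factors without constant roots -/
theorem ct_fac {m : ℕ} {F H : M[X]} {u : M} {T T' : Finset M[X]} {e : M[X] → ℕ}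
    (h : Fac (k := k) m F H u T T' e) (W : Place k M) (y : k)
    (hy : H.eval (algebraMap k M y) ≠ 0) :
    ct W H y = ∑ p ∈ T, (e p : ℤ) * ct W p y := by
  have h0 := hy
  rw [h.eq, Polynomial.eval_mul, Polynomial.eval_mul] at h0
  have hA : (∏ p ∈ T, p ^ e p).eval (algebraMap k M y) ≠ 0 :=
    left_ne_zero_of_mul (right_ne_zero_of_mul h0)
  have hB : (∏ p ∈ T', p ^ e p).eval (algebraMap k M y) ≠ 0 :=
    right_ne_zero_of_mul (right_ne_zero_of_mul h0)
  have hA' : ∀ p ∈ T, (p ^ e p).eval (algebraMap k M y) ≠ 0 := by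
    rw [Polynomial.eval_prod] at hA
    exact Finset.prod_ne_zero_iff.1 hA
  have hB' : ∀ p ∈ T', (p ^ e p).eval (algebraMap k M y) ≠ 0 := by
    rw [Polynomial.eval_prod] at hB
    exact Finset.prod_ne_zero_iff.1 hB
  have h1 : ct W (∏ p ∈ T', p ^ e p) y = 0 := by
    rw [ct_prod W T' _ hB']
    refine Finset.sum_eq_zero fun p hp => ?_
    rcases Nat.eq_zero_or_pos (e p) with he | he
    · rw [he, pow_zero, ct_one]
    · have h2 : p.eval (algebraMap k M y) ≠ 0 := by
        have := hB' p hp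
        rw [Polynomial.eval_pow] at this
        exact ne_zero_pow he.ne' this
      rw [ct_pow W h2]
      obtain ⟨c, hc⟩ := h.cst p hp
      have hyc : y ≠ c := by
        rintro rfl
        apply h2
        rw [hc]
        simp
      rw [hc, ct_X_sub_C W hyc, mul_zero]
  rw [h.eq, ct_mul W (by rw [Polynomial.eval_C]; exact h.unit)
    (by rw [Polynomial.eval_mul]; exact mul_ne_zero hA hB), ct_C W h.unit, zero_add,
    ct_mul W hA hB, h1, add_zero, ct_prod W T _ hA']
  exact Finset.sum_congr rfl fun p hp => ct_pow W (h.nroot p hp y) _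

theorem ct_fac_bounds {m : ℕ} {F H : M[X]} {u : M} {T T' : Finset M[X]} {e : M[X] → ℕ}
    (h : Fac (k := k) m F H u T T' e) (W : Place k M) (y : k)
    (hy : H.eval (algebraMap k M y) ≠ 0) :
    ct W (∏ p ∈ T, p) y ≤ ct W H y ∧
      ct W H y ≤ ((m : ℤ) - 1) * ct W (∏ p ∈ T, p) y := by
  have h5 : ct W (∏ p ∈ T, p) y = ∑ p ∈ T, ct W p y :=
    ct_prod W T _ fun p hp => h.nroot p hp y
  rw [ct_fac h W y hy, h5]
  constructor
  · refine Finset.sum_le_sum fun p hp => ?_
    have h7 := ct_nonneg W (h.nroot p hp y)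
    have h8 : (1 : ℤ) ≤ e p := by exact_mod_cast (h.irr p hp).2.2.1
    nlinarith
  · rw [Finset.mul_sum]
    refine Finset.sum_le_sum fun p hp => ?_
    have h7 := ct_nonneg W (h.nroot p hp y)
    have h8 : (e p : ℤ) ≤ (m : ℤ) - 1 := by
      have := (h.irr p hp).2.2.2
      omega
    nlinarith

end

theorem loc_a : LocA := by
  intro k M _ _ _ _ _ m N hm a F H u T T' e h hF hFc y hy i0 hi0 W i
  have hinf : Infinite k := IsAlgClosed.instInfinite
  by_cases hyi : y i = 0
  · left
    rw [hyi, mul_zero]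
  right
  have hH0 : H.eval (algebraMap k M (a i0)) = 1 := by rw [← hy, hi0, one_pow]
  have hH0' : H.eval (algebraMap k M (a i0)) ≠ 0 := by rw [hH0]; exact one_ne_zero
  have hHi : H.eval (algebraMap k M (a i)) ≠ 0 := by rw [← hy]; exact pow_ne_zero _ hyi
  have h1 : cnt W H = - ct W H (a i0) := by
    unfold ct
    rw [hH0, W.ord_one]
    ring
  have h2 : cnt W H ≤ (m : ℤ) * W.ord (y i) := by
    have := (cnt_eval W H (a i)).resolve_left hHi
    rwa [← hy i, W.ord_pow] at this
  have h3 := (ct_fac_bounds h W (a i0) hH0').2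
  -- comparison with `F`
  obtain ⟨B, hB⟩ := h.dvd
  have hGB := hFc (a i0)
  rw [hB, Polynomial.eval_mul] at hGB
  have hG := left_ne_zero_of_mul hGB
  have hB' := right_ne_zero_of_mul hGB
  have h4 : ct W F (a i0) = ct W (∏ p ∈ T, p) (a i0) + ct W B (a i0) := by
    rw [hB, ct_mul W hG hB']
  have h5 : 0 ≤ ct W B (a i0) := ct_nonneg W hB'
  have h6 : 0 ≤ ct W (∏ p ∈ T, p) (a i0) := ct_nonneg W hG
  have hm' : (1 : ℤ) ≤ m := by exact_mod_cast hm
  have h7 : - ct W F (a i0) ≤ W.ord (y i) := by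
    by_contra hcon
    push Not at hcon
    have h8 : (m : ℤ) * W.ord (y i) < (m : ℤ) * (- ct W F (a i0)) :=
      mul_lt_mul_of_pos_left hcon (by omega)
    have h9 : ((m : ℤ) - 1) * ct W (∏ p ∈ T, p) (a i0) ≤ ((m : ℤ) - 1) * ct W F (a i0) :=
      mul_le_mul_of_nonneg_left (by omega) (by omega)
    nlinarith
  rw [W.ord_mul (hFc (a i0)) hyi]
  have h10 : ct W F (a i0) = W.ord (F.eval (algebraMap k M (a i0))) - cnt W F := rfl
  omega

theorem loc_b : LocB := by
  intro k M _ _ _ _ _ m n N hm hN a ha F H u T T' e h hH hdeg y hy W i hyi h9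
  have hinf : Infinite k := IsAlgClosed.instInfinite
  have hHi : H.eval (algebraMap k M (a i)) ≠ 0 := by rw [← hy]; exact pow_ne_zero _ hyi
  have hdivm : ∀ i, (m : ℤ) ∣ W.ord (H.eval (algebraMap k M (a i))) := by
    intro i
    rw [← hy, W.ord_pow]
    exact Dvd.intro _ rfl
  have hcntm : (m : ℤ) ∣ cnt W H := by
    obtain ⟨j, hj, hj2⟩ := exists_good W hH hdeg (fun i : Fin (n + 1) =>
      a (Fin.castLE (by omega) i)) (fun x y hxy => Fin.castLE_injective _ (ha hxy))
    rw [← hj2]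
    exact hdivm _
  have h1 : (m : ℤ) ∣ ct W H (a i) := dvd_sub (hdivm i) hcntm
  obtain ⟨h6, h7⟩ := ct_fac_bounds h W (a i) hHi
  rw [h9] at h6 h7
  obtain ⟨c, hc⟩ := h1
  rw [hc] at h6 h7
  rw [mul_one] at h7
  have hm' : (2 : ℤ) ≤ m := by exact_mod_cast hm
  have h10 : c < 1 := by
    by_contra h
    push Not at h
    nlinarith
  have h11 : c ≤ 0 := by omega
  nlinarith

end Pool.Agent.N115.AN
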