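import Pool.Agent.N637.SLM.Stm7

/-!
# XT3: the norms
-/

set_option autoImplicit false

namespace Pool.Agent.N849.AN

open Pool.Agent.N637.SLM
open Pool.Agent.W262.RK (dv sgn sg0)

section loc

variable {p : ℕ} [hp : Fact p.Prime]

/-- `1 + r` is a square if `r` has positive valuation and `p` is odd (from `Pool.Agent.W22.RK.Loc`). -/
theorem sq_one_add (hp2 : p ≠ 2) (r : ℚ_[p]) (hr : ‖r‖ < 1) : IsSquare (1 + r) := by
  let r' : ℤ_[p] := ⟨r, hr.le⟩
  let F : Polynomial ℤ_[p] := Polynomial.X ^ 2 - Polynomial.C (1 + r')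
  have hr' : ‖r'‖ < 1 := hr
  have h1 : F.aeval (1 : ℤ_[p]) = -r' := by
    simp [F]
  have h2 : F.derivative.aeval (1 : ℤ_[p]) = 2 := by
    simp [F, one_add_one_eq_two]
  have h3 : ‖(2 : ℤ_[p])‖ = 1 := by
    have h4 : ¬ (p : ℤ) ∣ 2 := by
      intro h
      have h5 : p ∣ 2 := by exact_mod_cast h
      exact hp2 ((Nat.prime_dvd_prime_iff_eq hp.out Nat.prime_two).1 h5)
    have h5 : ¬ ‖((2 : ℤ) : ℚ_[p])‖ < 1 := by
      rw [Padic.norm_intCast_lt_one_iff]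
      exact h4
    have h6 : ‖(2 : ℤ_[p])‖ = ‖((2 : ℤ) : ℚ_[p])‖ := by
      rw [PadicInt.norm_def]
      norm_cast
    have h7 := PadicInt.norm_le_one (2 : ℤ_[p])
    rw [h6] at h7 ⊢
    exact le_antisymm h7 (not_lt.1 h5)
  obtain ⟨z, hz, -⟩ := hensels_lemma (p := p) (R := ℤ_[p]) (F := F) (a := 1) (by
    rw [h1, h2, h3, norm_neg]
    simpa using hr')
  have h8 : z ^ 2 = 1 + r' := by
    have : F.aeval z = z ^ 2 - (1 + r') := by simp [F]
    rw [this] at hz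
    exact sub_eq_zero.1 hz
  refine ⟨(z : ℚ_[p]), ?_⟩
  have h9 := congrArg (fun w : ℤ_[p] => (w : ℚ_[p])) h8
  simp only [PadicInt.coe_pow, PadicInt.coe_add, PadicInt.coe_one] at h9
  rw [← pow_two, h9]

/-- integers with symbol `1` are squares -/
theorem sq_of_sym (hp2 : p ≠ 2) {x : ℤ} (h : jacobiSym x p = 1) : IsSquare ((x : ℤ) : ℚ_[p]) := by
  rw [← jacobiSym.legendreSym.to_jacobiSym] at h
  have h0 : ((x : ℤ) : ZMod p) ≠ 0 := by
    intro h0
    rw [(legendreSym.eq_zero_iff p x).2 h0] at h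
    exact zero_ne_one h
  obtain ⟨z, hz⟩ := (legendreSym.eq_one_iff p h0).1 h
  set t : ℤ := (z.val : ℤ) with ht
  have htz : ((t : ℤ) : ZMod p) = z := by
    rw [ht, Int.cast_natCast, ZMod.natCast_val, ZMod.cast_id', id]
  have hd : (p : ℤ) ∣ x - t * t := by
    rw [← ZMod.intCast_zmod_eq_zero_iff_dvd]
    push_cast
    rw [htz, hz, sub_self]
  have ht0 : ¬ (p : ℤ) ∣ t := by
    intro h1
    rw [← ZMod.intCast_zmod_eq_zero_iff_dvd, htz] at h1
    rw [h1, mul_zero] at hz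
    exact h0 hz
  have hnt : ‖((t : ℤ) : ℚ_[p])‖ = 1 := by
    refine le_antisymm (Padic.norm_int_le_one t) (not_lt.1 fun h1 => ht0 ?_)
    exact Padic.norm_intCast_lt_one_iff.1 h1
  have htne : ((t : ℤ) : ℚ_[p]) ≠ 0 := by
    intro h1
    rw [h1, norm_zero] at hnt
    exact zero_ne_one hnt
  obtain ⟨s, hs⟩ := sq_one_add hp2 (((x - t * t : ℤ) : ℚ_[p]) / ((t : ℤ) : ℚ_[p]) ^ 2) (by
    rw [norm_div, norm_pow, hnt, one_pow, div_one]
    exact Padic.norm_intCast_lt_one_iff.2 hd)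
  refine ⟨((t : ℤ) : ℚ_[p]) * s, ?_⟩
  have e : ((t : ℤ) : ℚ_[p]) * s * (((t : ℤ) : ℚ_[p]) * s) = ((t : ℤ) : ℚ_[p]) ^ 2 * (s * s) := by
    ring
  rw [e, ← hs, mul_add, mul_one, mul_div_cancel₀ _ (pow_ne_zero 2 htne)]
  push_cast
  ring

omit hp in
theorem sgn_not {x : ℕ} (hp : p.Prime) (h : ¬ p ∣ x) : sgn p (x : ℤ) = sg0 p (x : ℤ) := by
  unfold Pool.Agent.W262.RK.sgn
  have h1 : Int.gcd (x : ℤ) (p : ℤ) = 1 := by
    rw [Int.gcd_natCast_natCast]
    exact ((Nat.Prime.coprime_iff_not_dvd hp).2 h).symm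
  rw [h1]
  norm_num

omit hp in
theorem sgn_mul (hp : p.Prime) (x : ℕ) : sgn p ((p * x : ℕ) : ℤ) = sg0 p (x : ℤ) := by
  unfold Pool.Agent.W262.RK.sgn
  have h1 : Int.gcd ((p * x : ℕ) : ℤ) (p : ℤ) = p := by
    rw [Int.gcd_natCast_natCast]
    exact Nat.gcd_eq_right (Dvd.intro x rfl)
  rw [h1]
  have h2 : ((p * x : ℕ) : ℤ) / (p : ℤ) = (x : ℤ) := by
    push_cast
    exact Int.mul_ediv_cancel_left _ (by exact_mod_cast hp.ne_zero)
  rw [h2]

omit hp in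
theorem dv_iff (x : ℕ) : dv p (x : ℤ) = true ↔ p ∣ x := by
  unfold Pool.Agent.W262.RK.dv
  rw [decide_eq_true_iff]
  exact Int.natCast_dvd_natCast

/-- the symbol -/
theorem sym_pm {x : ℕ} (h : ¬ p ∣ x) : jacobiSym (x : ℤ) p = 1 ∨ jacobiSym (x : ℤ) p = -1 := by
  refine jacobiSym.eq_one_or_neg_one ?_
  rw [Int.gcd_natCast_natCast]
  exact ((Nat.Prime.coprime_iff_not_dvd hp.out).2 h).symm

theorem sg0_eq {x y : ℕ} (hx : ¬ p ∣ x) (hy : ¬ p ∣ y) (h : sg0 p (x : ℤ) = sg0 p (y : ℤ)) :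
    jacobiSym (x : ℤ) p * jacobiSym (y : ℤ) p = 1 := by
  unfold Pool.Agent.W262.RK.sg0 at h
  rcases sym_pm hx with h1 | h1 <;> rcases sym_pm hy with h2 | h2 <;> rw [h1, h2] at h ⊢ <;>
    simp at h ⊢

theorem sg0_false {x : ℕ} (hx : ¬ p ∣ x) (h : sg0 p (x : ℤ) = false) :
    jacobiSym (x : ℤ) p = 1 := by
  unfold Pool.Agent.W262.RK.sg0 at h
  rcases sym_pm hx with h1 | h1
  · exact h1
  · rw [h1] at h
    simp at h

omit hp in
theorem sym_mul (x y : ℕ) : jacobiSym ((x * y : ℕ) : ℤ) p =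
    jacobiSym (x : ℤ) p * jacobiSym (y : ℤ) p := by
  push_cast
  exact jacobiSym.mul_left _ _ _

theorem sym_sq {x : ℕ} (h : ¬ p ∣ x) : jacobiSym (x : ℤ) p * jacobiSym (x : ℤ) p = 1 := by
  rcases sym_pm h with h1 | h1 <;> rw [h1] <;> norm_num

/-- from the square class `1` -/
theorem sol_one (hp2 : p ≠ 2) (n k : ℕ) (h : jacobiSym (k : ℤ) p = 1) :
    ∃ x y : ℚ_[p], (((k : ℕ) : ℤ) : ℚ_[p]) = x ^ 2 - ((-(n : ℤ) : ℤ) : ℚ_[p]) * y ^ 2 := by
  obtain ⟨s, hs⟩ := sq_of_sym hp2 h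
  exact ⟨s, 0, by rw [hs]; ring⟩

/-- from the square class of `n` -/
theorem sol_n (hp2 : p ≠ 2) {W' u n a' b : ℕ} (h0 : u * (p * W') ≠ 0)
    (hn : n = u * (p * W') ∨ n = 4 * (u * (p * W')))
    (h : jacobiSym ((a' * b * (u * W') : ℕ) : ℤ) p = 1) :
    ∃ x y : ℚ_[p], (((p * a' * b : ℕ) : ℤ) : ℚ_[p]) =
      x ^ 2 - ((-(n : ℤ) : ℤ) : ℚ_[p]) * y ^ 2 := by
  obtain ⟨s, hs⟩ := sq_of_sym hp2 h
  have hs' : (a' : ℚ_[p]) * b * (u * W') = s * s := by
    rw [← hs]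
    push_cast
    ring
  have h1 : (u : ℚ_[p]) ≠ 0 := by
    have : u ≠ 0 := left_ne_zero_of_mul h0
    exact_mod_cast this
  have h2 : (W' : ℚ_[p]) ≠ 0 := by
    have : W' ≠ 0 := right_ne_zero_of_mul (right_ne_zero_of_mul h0)
    exact_mod_cast this
  have h3 : (p : ℚ_[p]) ≠ 0 := by exact_mod_cast hp.out.ne_zero
  rcases hn with rfl | rfl
  · refine ⟨0, s / (u * W'), ?_⟩
    push_cast
    field_simp
    linear_combination (p : ℚ_[p]) * hs'
  · refine ⟨0, s / (2 * (u * W')), ?_⟩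
    push_cast
    field_simp
    linear_combination 4 * (p : ℚ_[p]) * hs'

/-- the primes of `W`, up to the symmetry -/
theorem loc_aux (hp2 : p ≠ 2) {u W n a b g : ℕ} (hsq : Squarefree (u * W)) (h0 : u * W ≠ 0)
    (hn : n = u * W ∨ n = 4 * (u * W)) (hpW : p ∣ W) (hpb : ¬ p ∣ b)
    (hag : a * g ∣ W) (hbg : b * g ∣ W)
    (h1 : sgn p ((a * g : ℕ) : ℤ) = (dv p ((a * g : ℕ) : ℤ) && sgn p ((u * W : ℕ) : ℤ)))
    (h2 : sgn p ((b * g : ℕ) : ℤ) = (dv p ((b * g : ℕ) : ℤ) && sgn p ((u * W : ℕ) : ℤ))) :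
    ∃ x y : ℚ_[p], (((a * b : ℕ) : ℤ) : ℚ_[p]) = x ^ 2 - ((-(n : ℤ) : ℤ) : ℚ_[p]) * y ^ 2 := by
  obtain ⟨W', rfl⟩ := hpW
  have hWsq : Squarefree (p * W') := hsq.of_mul_right
  have key : ∀ x y : ℕ, Squarefree (x * y) → p ∣ x → ¬ p ∣ y := by
    intro x y hxy h3 h4
    exact hp.out.prime.not_isUnit (hxy p (mul_dvd_mul h3 h4))
  have hpW' : ¬ p ∣ W' := key p W' hWsq dvd_rfl
  have hpu : ¬ p ∣ u := by
    intro h3
    exact key u (p * W') hsq h3 (Dvd.intro _ rfl)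
  have hpuW : ¬ p ∣ u * W' := fun h3 => (hp.out.dvd_mul.1 h3).elim hpu hpW'
  have hm : sgn p ((u * (p * W') : ℕ) : ℤ) = sg0 p ((u * W' : ℕ) : ℤ) := by
    have h3 := sgn_mul hp.out (u * W')
    rwa [show p * (u * W') = u * (p * W') by ring] at h3
  rw [hm] at h1 h2
  have hM := sym_sq hpuW
  by_cases hpg : p ∣ g
  · obtain ⟨g', rfl⟩ := hpg
    have e1 : a * (p * g') = p * (a * g') := by ring
    have e2 : b * (p * g') = p * (b * g') := by ring
    rw [e1] at h1 hag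
    rw [e2] at h2 hbg
    have n1 : ¬ p ∣ a * g' := key _ _ (hWsq.squarefree_of_dvd hag) dvd_rfl
    have n2 : ¬ p ∣ b * g' := key _ _ (hWsq.squarefree_of_dvd hbg) dvd_rfl
    have d1 : dv p ((p * (a * g') : ℕ) : ℤ) = true := (dv_iff _).2 (Dvd.intro _ rfl)
    have d2 : dv p ((p * (b * g') : ℕ) : ℤ) = true := (dv_iff _).2 (Dvd.intro _ rfl)
    rw [sgn_mul hp.out, d1, Bool.true_and] at h1
    rw [sgn_mul hp.out, d2, Bool.true_and] at h2
    have f1 := sg0_eq n1 hpuW h1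
    have f2 := sg0_eq n2 hpuW h2
    have ng : ¬ p ∣ g' := fun h3 => n1 (Dvd.dvd.mul_left h3 a)
    have hG := sym_sq ng
    rw [sym_mul a g'] at f1
    rw [sym_mul b g'] at f2
    refine sol_one hp2 n (a * b) ?_
    rw [sym_mul a b]
    have h5 : jacobiSym (a : ℤ) p * jacobiSym (b : ℤ) p *
        (jacobiSym (g' : ℤ) p * jacobiSym (g' : ℤ) p) *
        (jacobiSym ((u * W' : ℕ) : ℤ) p * jacobiSym ((u * W' : ℕ) : ℤ) p) = 1 := by
      calc jacobiSym (a : ℤ) p * jacobiSym (b : ℤ) p *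
            (jacobiSym (g' : ℤ) p * jacobiSym (g' : ℤ) p) *
            (jacobiSym ((u * W' : ℕ) : ℤ) p * jacobiSym ((u * W' : ℕ) : ℤ) p)
          = (jacobiSym (a : ℤ) p * jacobiSym (g' : ℤ) p * jacobiSym ((u * W' : ℕ) : ℤ) p) *
            (jacobiSym (b : ℤ) p * jacobiSym (g' : ℤ) p * jacobiSym ((u * W' : ℕ) : ℤ) p) := by
              ring
        _ = 1 := by rw [f1, f2, mul_one]
    rwa [hG, hM, mul_one, mul_one] at h5
  · have hG := sym_sq hpg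
    have n2 : ¬ p ∣ b * g := fun h3 => (hp.out.dvd_mul.1 h3).elim hpb hpg
    have d2 : dv p ((b * g : ℕ) : ℤ) = false := by
      rw [← Bool.not_eq_true]
      intro h3
      exact n2 ((dv_iff _).1 h3)
    rw [sgn_not hp.out n2, d2, Bool.false_and] at h2
    have f2 := sg0_false n2 h2
    rw [sym_mul b g] at f2
    by_cases hpa : p ∣ a
    · obtain ⟨a', rfl⟩ := hpa
      have e1 : p * a' * g = p * (a' * g) := by ring
      rw [e1] at h1 hag
      have n1 : ¬ p ∣ a' * g := key _ _ (hWsq.squarefree_of_dvd hag) dvd_rfl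
      have d1 : dv p ((p * (a' * g) : ℕ) : ℤ) = true := (dv_iff _).2 (Dvd.intro _ rfl)
      rw [sgn_mul hp.out, d1, Bool.true_and] at h1
      have f1 := sg0_eq n1 hpuW h1
      rw [sym_mul a' g] at f1
      refine sol_n hp2 h0 hn ?_
      rw [sym_mul (a' * b) (u * W'), sym_mul a' b]
      have h5 : jacobiSym (a' : ℤ) p * jacobiSym (b : ℤ) p * jacobiSym ((u * W' : ℕ) : ℤ) p *
          (jacobiSym (g : ℤ) p * jacobiSym (g : ℤ) p) = 1 := by
        calc jacobiSym (a' : ℤ) p * jacobiSym (b : ℤ) p * jacobiSym ((u * W' : ℕ) : ℤ) p *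
              (jacobiSym (g : ℤ) p * jacobiSym (g : ℤ) p)
            = (jacobiSym (a' : ℤ) p * jacobiSym (g : ℤ) p * jacobiSym ((u * W' : ℕ) : ℤ) p) *
              (jacobiSym (b : ℤ) p * jacobiSym (g : ℤ) p) := by ring
          _ = 1 := by rw [f1, f2, mul_one]
      rwa [hG, mul_one] at h5
    · have n1 : ¬ p ∣ a * g := fun h3 => (hp.out.dvd_mul.1 h3).elim hpa hpg
      have d1 : dv p ((a * g : ℕ) : ℤ) = false := by
        rw [← Bool.not_eq_true]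
        intro h3
        exact n1 ((dv_iff _).1 h3)
      rw [sgn_not hp.out n1, d1, Bool.false_and] at h1
      have f1 := sg0_false n1 h1
      rw [sym_mul a g] at f1
      refine sol_one hp2 n (a * b) ?_
      rw [sym_mul a b]
      have h5 : jacobiSym (a : ℤ) p * jacobiSym (b : ℤ) p *
          (jacobiSym (g : ℤ) p * jacobiSym (g : ℤ) p) = 1 := by
        calc jacobiSym (a : ℤ) p * jacobiSym (b : ℤ) p *
              (jacobiSym (g : ℤ) p * jacobiSym (g : ℤ) p)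
            = (jacobiSym (a : ℤ) p * jacobiSym (g : ℤ) p) *
              (jacobiSym (b : ℤ) p * jacobiSym (g : ℤ) p) := by ring
          _ = 1 := by rw [f1, f2, mul_one]
      rwa [hG, mul_one] at h5

/-- the primes of `W` -/
theorem loc_W (hp2 : p ≠ 2) {u W n a b g : ℕ} (hsq : Squarefree (u * W)) (h0 : u * W ≠ 0)
    (hn : n = u * W ∨ n = 4 * (u * W)) (hpW : p ∣ W) (hab : Nat.Coprime a b)
    (hag : a * g ∣ W) (hbg : b * g ∣ W)
    (h1 : sgn p ((a * g : ℕ) : ℤ) = (dv p ((a * g : ℕ) : ℤ) && sgn p ((u * W : ℕ) : ℤ)))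
    (h2 : sgn p ((b * g : ℕ) : ℤ) = (dv p ((b * g : ℕ) : ℤ) && sgn p ((u * W : ℕ) : ℤ))) :
    ∃ x y : ℚ_[p], (((a * b : ℕ) : ℤ) : ℚ_[p]) = x ^ 2 - ((-(n : ℤ) : ℤ) : ℚ_[p]) * y ^ 2 := by
  by_cases hpb : p ∣ b
  · have hpa : ¬ p ∣ a := by
      intro hpa
      exact hp.out.one_lt.ne' (Nat.dvd_one.1 (hab ▸ Nat.dvd_gcd hpa hpb))
    rw [mul_comm a b]
    exact loc_aux hp2 hsq h0 hn hpW hpa hbg hag h2 h1
  · exact loc_aux hp2 hsq h0 hn hpW hpb hag hbg h1 h2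

/-- the primes of `u` -/
theorem loc_u (hp2 : p ≠ 2) {n a b g : ℕ} (hag : ¬ p ∣ a * g) (hbg : ¬ p ∣ b * g)
    (h1 : sgn p ((a * g : ℕ) : ℤ) = sgn p ((b * g : ℕ) : ℤ)) :
    ∃ x y : ℚ_[p], (((a * b : ℕ) : ℤ) : ℚ_[p]) = x ^ 2 - ((-(n : ℤ) : ℤ) : ℚ_[p]) * y ^ 2 := by
  rw [sgn_not hp.out hag, sgn_not hp.out hbg] at h1
  have f1 := sg0_eq hag hbg h1
  rw [sym_mul a g, sym_mul b g] at f1
  have hG := sym_sq (x := g) (fun h3 => hag (Dvd.dvd.mul_left h3 a))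
  refine sol_one hp2 n (a * b) ?_
  rw [sym_mul a b]
  have h5 : jacobiSym (a : ℤ) p * jacobiSym (b : ℤ) p *
      (jacobiSym (g : ℤ) p * jacobiSym (g : ℤ) p) = 1 := by
    rw [← f1]
    ring
  rwa [hG, mul_one] at h5

end loc

theorem mem_GG {W d : ℕ} {m : ℤ} (h : d ∈ GG W m) : d ∣ W ∧ ∀ p ∈ W.primeFactors,
    sgn p (d : ℤ) = (dv p (d : ℤ) && sgn p m) := by
  unfold GG at h
  rw [Finset.mem_filter, Nat.mem_divisors] at h
  exact ⟨h.1.1, h.2⟩

/-- the product of `d` and `e` -/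
theorem dn {u W n d e : ℕ} (hsq : Squarefree (u * W)) (h0 : u * W ≠ 0)
    (hn : n = u * W ∨ n = 4 * (u * W)) (hd : d ∈ GG W ((u * W : ℕ) : ℤ))
    (he : e ∈ GG W ((u * W : ℕ) : ℤ))
    (hS : ∀ p ∈ u.primeFactors, sgn p (d : ℤ) = sgn p (e : ℤ)) :
    DnC n ((d / d.gcd e) * (e / d.gcd e)) := by
  obtain ⟨hdW, hd⟩ := mem_GG hd
  obtain ⟨heW, he⟩ := mem_GG he
  have hW0 : W ≠ 0 := right_ne_zero_of_mul h0
  have hu0 : u ≠ 0 := left_ne_zero_of_mul h0
  have hd0 : 0 < d := Nat.pos_of_dvd_of_pos hdW (Nat.pos_of_ne_zero hW0)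
  have hg : 0 < d.gcd e := Nat.gcd_pos_of_pos_left _ hd0
  have hab : Nat.Coprime (d / d.gcd e) (e / d.gcd e) := Nat.coprime_div_gcd_div_gcd hg
  have e1 : d / d.gcd e * d.gcd e = d := Nat.div_mul_cancel (Nat.gcd_dvd_left d e)
  have e2 : e / d.gcd e * d.gcd e = e := Nat.div_mul_cancel (Nat.gcd_dvd_right d e)
  generalize d.gcd e = g at hg hab e1 e2 ⊢
  generalize d / g = a at hab e1 e2 ⊢
  generalize e / g = b at hab e1 e2 ⊢
  subst e1 e2
  have hkW : a * b ∣ W := Nat.Coprime.mul_dvd_of_dvd_of_dvd hab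
    ((Dvd.intro _ rfl).trans hdW) ((Dvd.intro _ rfl).trans heW)
  have hWn : W ∣ n := by
    rcases hn with h | h
    · rw [h]
      exact Dvd.intro_left _ rfl
    · rw [h]
      exact (Dvd.intro_left u rfl).trans (Dvd.intro_left 4 rfl)
  refine ⟨hsq.of_mul_right.squarefree_of_dvd hkW, hkW.trans hWn, ?_⟩
  intro p hp hp2 hpn hF
  have hpuW : p ∣ u * W := by
    rcases hn with h | h
    · rwa [h] at hpn
    · rw [h] at hpn
      rcases hp.dvd_mul.1 hpn with h4 | h4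
      · exfalso
        have h5 : p ∣ 2 ^ 2 := by norm_num [h4]
        exact hp2 ((Nat.prime_dvd_prime_iff_eq hp Nat.prime_two).1 (hp.dvd_of_dvd_pow h5))
      · exact h4
  rcases hp.dvd_mul.1 hpuW with hpu | hpW
  · have hpW : ¬ p ∣ W := by
      intro h3
      exact hp.prime.not_isUnit (hsq p (mul_dvd_mul hpu h3))
    exact loc_u hp2 (fun h => hpW (h.trans hdW)) (fun h => hpW (h.trans heW))
      (hS p (Nat.mem_primeFactors.2 ⟨hp, hpu, hu0⟩))
  · have hm : p ∈ W.primeFactors := Nat.mem_primeFactors.2 ⟨hp, hpW, hW0⟩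
    exact loc_W hp2 hsq h0 hn hpW hab hdW heW (hd p hm) (he p hm)

/-- the primes of the product -/
theorem par {d e p : ℕ} (hp : p.Prime) (hd : Squarefree d) (he : Squarefree e) :
    p ∣ d ↔ (p ∣ (d / d.gcd e) * (e / d.gcd e) ↔ ¬ p ∣ e) := by
  have hd0 : 0 < d := Nat.pos_of_ne_zero hd.ne_zero
  have hg : 0 < d.gcd e := Nat.gcd_pos_of_pos_left _ hd0
  have hab : Nat.Coprime (d / d.gcd e) (e / d.gcd e) := Nat.coprime_div_gcd_div_gcd hg
  have e1 : d / d.gcd e * d.gcd e = d := Nat.div_mul_cancel (Nat.gcd_dvd_left d e)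
  have e2 : e / d.gcd e * d.gcd e = e := Nat.div_mul_cancel (Nat.gcd_dvd_right d e)
  generalize d.gcd e = g at hg hab e1 e2 ⊢
  generalize d / g = a at hab e1 e2 ⊢
  generalize e / g = b at hab e1 e2 ⊢
  subst e1 e2
  have n1 : ¬ (p ∣ a ∧ p ∣ g) := fun h => hp.prime.not_isUnit (hd p (mul_dvd_mul h.1 h.2))
  have n2 : ¬ (p ∣ b ∧ p ∣ g) := fun h => hp.prime.not_isUnit (he p (mul_dvd_mul h.1 h.2))
  have n3 : ¬ (p ∣ a ∧ p ∣ b) := fun h =>
    hp.one_lt.ne' (Nat.dvd_one.1 (hab ▸ Nat.dvd_gcd h.1 h.2))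
  rw [hp.dvd_mul, hp.dvd_mul, hp.dvd_mul]
  tauto

theorem t_XT3 : S_XT3 := by
  intro W u n hW hsq hn
  classical
  have h0 : u * W ≠ 0 := hsq.ne_zero
  have hn0 : n ≠ 0 := by
    rcases hn with h | h
    · rw [h]
      exact h0
    · rw [h]
      exact mul_ne_zero (by norm_num) h0
  have hfin : Finite {d : ℕ // DnC n d} :=
    Finite.of_injective (fun d : {d : ℕ // DnC n d} =>
      (⟨d.1, Nat.mem_divisors.2 ⟨d.2.2.1, hn0⟩⟩ : n.divisors)) (by
        intro x y hxy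
        exact Subtype.ext (congrArg (fun z : n.divisors => z.1) hxy))
  set S : Finset ℕ := GG W ((u * W : ℕ) : ℤ) with hS
  set f : ℕ → (u.primeFactors → Bool) := fun d p => sgn p.1 (d : ℤ) with hf
  have h1 := Finset.card_le_mul_card_image (f := f) S (Nat.card {d : ℕ // DnC n d}) (by
    intro v hv
    obtain ⟨e, he, hev⟩ := Finset.mem_image.1 hv
    have hk : ∀ x ∈ S.filter (fun x => f x = v), DnC n ((x / x.gcd e) * (e / x.gcd e)) := by
      intro x hx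
      rw [Finset.mem_filter] at hx
      refine dn hsq h0 hn hx.1 he ?_
      intro p hp
      have h2 : f x = f e := hx.2.trans hev.symm
      exact congrFun h2 ⟨p, hp⟩
    have h2 := Nat.card_le_card_of_injective
      (fun x : {x : ℕ // x ∈ S.filter (fun x => f x = v)} =>
        (⟨(x.1 / x.1.gcd e) * (e / x.1.gcd e), hk x.1 x.2⟩ : {d : ℕ // DnC n d})) (by
        intro x y hxy
        have h3 : (x.1 / x.1.gcd e) * (e / x.1.gcd e) = (y.1 / y.1.gcd e) * (e / y.1.gcd e) :=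
          congrArg (fun z : {d : ℕ // DnC n d} => z.1) hxy
        have hWs : Squarefree W := hsq.of_mul_right
        have hxs : Squarefree x.1 :=
          hWs.squarefree_of_dvd (mem_GG (Finset.mem_filter.1 x.2).1).1
        have hys : Squarefree y.1 :=
          hWs.squarefree_of_dvd (mem_GG (Finset.mem_filter.1 y.2).1).1
        have hes : Squarefree e := hWs.squarefree_of_dvd (mem_GG he).1
        refine Subtype.ext ((Nat.Squarefree.ext_iff hxs hys).2 ?_)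
        intro p hp
        rw [par hp hxs hes, par hp hys hes, h3])
    rwa [Nat.card_eq_fintype_card, Fintype.card_coe] at h2)
  refine h1.trans ?_
  rw [mul_comm]
  refine Nat.mul_le_mul_right _ ?_
  refine (Finset.card_le_univ _).trans ?_
  rw [Fintype.card_fun, Fintype.card_bool, Fintype.card_coe]

end Pool.Agent.N849.AN
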